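import Pool.Agent.helper73.TF.Spec

/-!
# Row tf:VEC (MP_a2a22c_al)

A virtually solvable subgroup `A` of `SL(n, ℤ)` has a nonzero vector `x` with finitely many points `pr (g x)`, `g ∈ A`.

Proof. Let `S ≤ A` be solvable of finite index, `ρ` the action of `S` on `ℂⁿ`. `Z_MAL_stmt` gives a subgroup `G₁` of finite
index of `S` such that the restriction of `ρ` is triangularisable: for the invariant subspaces `⊥ < ⊤` (`n ≥ 1`) there is
`x ≠ 0` with `ρ g x ∈ ℂ x` for all `g ∈ G₁`. The image `B` of `G₁` in `A` has finite index. If `g' = g b`, `b ∈ B`, then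
`g' x = g (b x) = c • g x`, and `c ≠ 0` because `g' x ≠ 0`; so `pr (g' x) = pr (g x)` by `PRC_stmt`, and the point depends only
on the coset `g B`.
-/

set_option autoImplicit false

namespace Pool.Agent.TF

open Matrix Pool.Agent.H48SL
open scoped Pointwise

/-- the entries of the complex matrix: a ring homomorphism -/
theorem VEC_cm_eq {n : ℕ} (g : SLZ n) :
    cm g = (g : Matrix (Fin n) (Fin n) ℤ).map (Int.castRingHom ℂ) := rfl

theorem VEC_cm_mul {n : ℕ} (g h : SLZ n) : cm (g * h) = cm g * cm h := by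
  show (((g : Matrix (Fin n) (Fin n) ℤ) * (h : Matrix (Fin n) (Fin n) ℤ)).map (Int.castRingHom ℂ)) = _
  rw [Matrix.map_mul]
  rfl

theorem VEC_cm_one {n : ℕ} : cm (1 : SLZ n) = 1 := by
  show ((1 : Matrix (Fin n) (Fin n) ℤ).map (Int.castRingHom ℂ)) = 1
  rw [Matrix.map_one _ (map_zero _) (map_one _)]

/-- the action on `ℂⁿ` -/
noncomputable def VEC_rho (n : ℕ) (S : Subgroup (SLZ n)) : S →* Module.End ℂ (Fin n → ℂ) where
  toFun g := Matrix.toLin' (cm (g : SLZ n))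
  map_one' := by
    rw [Subgroup.coe_one, VEC_cm_one, Matrix.toLin'_one]
    rfl
  map_mul' g h := by
    rw [Subgroup.coe_mul, VEC_cm_mul, Matrix.toLin'_mul]
    rfl

theorem VEC_ne {n : ℕ} (g : SLZ n) (x : Fin n → ℂ) (hx : x ≠ 0) : cm g *ᵥ x ≠ 0 := by
  intro h
  apply hx
  have h1 : cm (g⁻¹ * g) *ᵥ x = 0 := by
    rw [VEC_cm_mul, ← Matrix.mulVec_mulVec, h, Matrix.mulVec_zero]
  rwa [inv_mul_cancel, VEC_cm_one, Matrix.one_mulVec] at h1

/-- a common eigenvector of a subgroup `B` of finite index of `A` -/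
theorem VEC_eig (hMAL : Pool.Agent.PR.Z_MAL_stmt) {n : ℕ} (hn : 1 ≤ n) (A : Subgroup (SLZ n)) (hA : VSol A) :
    ∃ B : Subgroup (SLZ n), B ≤ A ∧ B.relIndex A ≠ 0 ∧ ∃ x : Fin n → ℂ, x ≠ 0 ∧
      ∀ b ∈ B, ∃ c : ℂ, cm b *ᵥ x = c • x := by
  obtain ⟨S, hSA, hsol, hidx⟩ := hA
  obtain ⟨G₁, hG₁, htri⟩ := hMAL ℂ (Fin n → ℂ) S hsol (VEC_rho n S)
  have : Nonempty (Fin n) := ⟨⟨0, hn⟩⟩
  have hlt : (⊥ : Submodule ℂ (Fin n → ℂ)) < ⊤ := bot_lt_top
  obtain ⟨x, -, hx, hc⟩ := htri ⊥ ⊤ (fun g w hw => by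
    rw [Submodule.mem_bot] at hw
    rw [hw, map_zero]
    exact Submodule.zero_mem _) (fun g w _ => Submodule.mem_top) hlt
  refine ⟨G₁.map S.subtype, ?_, ?_, x, ?_, ?_⟩
  · rintro _ ⟨s, -, rfl⟩
    exact hSA s.2
  · have h1 : G₁.map S.subtype ≤ S := by
      rintro _ ⟨s, -, rfl⟩
      exact s.2
    rw [← Subgroup.relIndex_mul_relIndex _ _ _ h1 hSA]
    refine mul_ne_zero ?_ hidx
    have h2 : (G₁.map S.subtype).subgroupOf S = G₁ :=
      Subgroup.comap_map_eq_self_of_injective S.subtype_injective G₁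
    unfold Subgroup.relIndex
    rw [h2]
    exact hG₁.index_ne_zero
  · intro h
    exact hx (by rw [h]; exact Submodule.zero_mem _)
  · rintro _ ⟨s, hs, rfl⟩
    obtain ⟨c, hc⟩ := hc ⟨s, hs⟩
    rw [Submodule.mem_bot, sub_eq_zero] at hc
    exact ⟨c, hc⟩

theorem VEC (hMAL : Pool.Agent.PR.Z_MAL_stmt) (hPRC : PRC_stmt) : VEC_stmt := by
  intro n hn A hA
  obtain ⟨B, hBA, hidx, x, hx, hB⟩ := VEC_eig hMAL hn A hA
  refine ⟨x, hx, ?_⟩
  have hfi : (B.subgroupOf A).FiniteIndex := ⟨hidx⟩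
  have : Finite (A ⧸ B.subgroupOf A) := Subgroup.finite_quotient_of_finiteIndex
  refine (Set.finite_range
    (fun q : A ⧸ B.subgroupOf A => pr (cm ((q.out : A) : SLZ n) *ᵥ x))).subset ?_
  rintro M ⟨g, hg, rfl⟩
  refine ⟨((⟨g, hg⟩ : A) : A ⧸ B.subgroupOf A), ?_⟩
  obtain ⟨h, hh⟩ := QuotientGroup.mk_out_eq_mul (B.subgroupOf A) (⟨g, hg⟩ : A)
  obtain ⟨c, hc⟩ := hB ((h : A) : SLZ n) (Subgroup.mem_subgroupOf.mp h.2)
  have h1 : cm ((((⟨g, hg⟩ : A) : A ⧸ B.subgroupOf A).out : A) : SLZ n) *ᵥ x = c • (cm g *ᵥ x) := by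
    rw [hh, Subgroup.coe_mul, VEC_cm_mul, ← Matrix.mulVec_mulVec, hc, Matrix.mulVec_smul]
  have h2 : c ≠ 0 := by
    intro h0
    apply VEC_ne ((((⟨g, hg⟩ : A) : A ⧸ B.subgroupOf A).out : A) : SLZ n) x hx
    rw [h1, h0, zero_smul]
  show pr (cm ((((⟨g, hg⟩ : A) : A ⧸ B.subgroupOf A).out : A) : SLZ n) *ᵥ x) = _
  rw [h1]
  exact (hPRC n).2.1 c (cm g *ᵥ x) h2

end Pool.Agent.TF
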